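import Mathlib

set_option autoImplicit false

namespace R335.RC

variable {V C : Type}

/-- There is a rainbow cycle of length `k` (in particular `k ≥ 3`) in the edge colouring `c` of
the complete graph on the vertex set `V`. -/
def HasRainbowCycle (c : Sym2 V → C) (k : ℕ) : Prop :=
  3 ≤ k ∧ ∃ f : ZMod k → V, Function.Injective f ∧
    Function.Injective (fun i : ZMod k => c s(f i, f (i + 1)))

/-- colour of the `i`-th edge of a bi-infinite vertex sequence -/
def kap (c : Sym2 V → C) (v : ℤ → V) (i : ℤ) : C := c s(v i, v (i + 1))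

/-- A rainbow cycle of length `m`, unrolled to a periodic sequence. -/
structure Dat (c : Sym2 V → C) (m : ℕ) (v : ℤ → V) : Prop where
  per : ∀ i : ℤ, v (i + m) = v i
  vinj : ∀ i j : ℤ, i < j → j < i + m → v i ≠ v j
  kinj : ∀ i j : ℤ, i < j → j < i + m → kap c v i ≠ kap c v j

theorem Dat.veq {c : Sym2 V → C} {m : ℕ} {v : ℤ → V} (D : Dat c m v) {i j s : ℤ}
    (hi : s ≤ i) (hi' : i < s + m) (hj : s ≤ j) (hj' : j < s + m) (h : v i = v j) : i = j := by
  rcases lt_trichotomy i j with h1 | h1 | h1
  · exact absurd h (D.vinj i j h1 (by omega))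
  · exact h1
  · exact absurd h.symm (D.vinj j i h1 (by omega))

theorem Dat.keq {c : Sym2 V → C} {m : ℕ} {v : ℤ → V} (D : Dat c m v) {i j : ℤ} (s : ℤ)
    (hi : s ≤ i) (hi' : i < s + m) (hj : s ≤ j) (hj' : j < s + m)
    (h : kap c v i = kap c v j) : i = j := by
  rcases lt_trichotomy i j with h1 | h1 | h1
  · exact absurd h (D.kinj i j h1 (by omega))
  · exact h1
  · exact absurd h.symm (D.kinj j i h1 (by omega))

/-- the reversed cycle -/
theorem Dat.rev {c : Sym2 V → C} {m : ℕ} {v : ℤ → V} (D : Dat c m v) :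
    Dat c m (fun i => v (-i)) := by
  have hk : ∀ i, kap c (fun i => v (-i)) i = kap c v (-i - 1) := by
    intro i
    simp only [kap]
    rw [Sym2.eq_swap]
    congr 3 <;> ring
  refine ⟨?_, ?_, ?_⟩
  · intro i
    show v (-(i + m)) = v (-i)
    rw [← D.per (-(i + m))]
    congr 1; ring
  · intro i j hij hj
    exact (D.vinj (-j) (-i) (by omega) (by omega)).symm
  · intro i j hij hj
    rw [hk, hk]
    exact (D.kinj (-j - 1) (-i - 1) (by omega) (by omega)).symm

theorem Dat.kap_rev {c : Sym2 V → C} {v : ℤ → V} (i : ℤ) :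
    kap c (fun i => v (-i)) i = kap c v (-i - 1) := by
  simp only [kap]
  rw [Sym2.eq_swap]
  congr 3 <;> ring

/-- every rainbow cycle can be unrolled -/
theorem exists_dat {c : Sym2 V → C} {m : ℕ} (h : HasRainbowCycle c m) :
    ∃ v : ℤ → V, Dat c m v := by
  obtain ⟨hm, f, hf, hc⟩ := h
  have key : ∀ i j : ℤ, i < j → j < i + m → ((i : ℤ) : ZMod m) ≠ ((j : ℤ) : ZMod m) := by
    intro i j hij hj h
    rw [ZMod.intCast_eq_intCast_iff_dvd_sub] at h
    have := Int.le_of_dvd (by omega) h
    omega
  refine ⟨fun i => f (i : ZMod m), ?_, ?_, ?_⟩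
  · intro i
    show f _ = f _
    congr 1
    push_cast
    simp
  · intro i j hij hj h
    exact key i j hij hj (hf h)
  · intro i j hij hj h
    refine key i j hij hj (hc ?_)
    simp only [kap] at h
    push_cast at h
    exact h

/-! ### Paths along integer positions -/

/-- `IP c v a b P Q`: the list of positions `P` goes from `a` to `b`, and the consecutive
edges have the colours `kap c v q`, `q ∈ Q`. -/
inductive IP (c : Sym2 V → C) (v : ℤ → V) : ℤ → ℤ → List ℤ → List ℤ → Prop
  | single (a : ℤ) : IP c v a a [a] []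
  | cons {a b d q : ℤ} {P Q : List ℤ} (h : c s(v a, v b) = kap c v q) (h' : IP c v b d P Q) :
      IP c v a d (a :: P) (q :: Q)

theorem IP.append {c : Sym2 V → C} {v : ℤ → V} {a b b' d q : ℤ} {P Q P' Q' : List ℤ}
    (h : IP c v a b P Q) (hq : c s(v b, v b') = kap c v q) (h' : IP c v b' d P' Q') :
    IP c v a d (P ++ P') (Q ++ q :: Q') := by
  induction h with
  | single a => exact IP.cons hq h'
  | cons h1 _ ih => exact IP.cons h1 (ih hq)

theorem IP.reverse {c : Sym2 V → C} {v : ℤ → V} {a b : ℤ} {P Q : List ℤ}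
    (h : IP c v a b P Q) : IP c v b a P.reverse Q.reverse := by
  induction h with
  | single a => exact IP.single a
  | cons h1 _ ih =>
    rw [List.reverse_cons, List.reverse_cons]
    exact ih.append (by rw [Sym2.eq_swap]; exact h1) (IP.single _)

/-- the interval `[a, a + n)` as a list -/
def I (a : ℤ) (n : ℕ) : List ℤ := (List.range n).map (fun t : ℕ => a + (t : ℤ))

theorem mem_I {a x : ℤ} {n : ℕ} : x ∈ I a n ↔ a ≤ x ∧ x < a + n := by
  simp only [I, List.mem_map, List.mem_range]
  constructor
  · rintro ⟨t, ht, rfl⟩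
    omega
  · rintro ⟨h1, h2⟩
    exact ⟨(x - a).toNat, by omega, by omega⟩

theorem nodup_I (a : ℤ) (n : ℕ) : (I a n).Nodup := by
  refine List.Nodup.map ?_ List.nodup_range
  intro x y h
  simpa using h

@[simp] theorem length_I (a : ℤ) (n : ℕ) : (I a n).length = n := by simp [I]

theorem I_succ (a : ℤ) (n : ℕ) : I a (n + 1) = a :: I (a + 1) n := by
  simp only [I, List.range_succ_eq_map, List.map_cons, List.map_map]
  congr 1
  · simp
  · refine List.map_congr_left fun t _ => ?_
    simp only [Function.comp]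
    push_cast
    ring

theorem IP_up (c : Sym2 V → C) (v : ℤ → V) (n : ℕ) : ∀ (a b : ℤ), b = a + n →
    IP c v a b (I a (n + 1)) (I a n) := by
  induction n with
  | zero =>
    intro a b hb
    have : b = a := by simpa using hb
    subst this
    simpa [I] using IP.single (c := c) (v := v) b
  | succ n ih =>
    intro a b hb
    rw [I_succ a (n + 1), I_succ a n]
    refine IP.cons (b := a + 1) rfl (ih (a + 1) b ?_)
    rw [hb]; push_cast; ring

theorem IP_down (c : Sym2 V → C) (v : ℤ → V) (n : ℕ) (a b : ℤ) (h : b = a + n) :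
    IP c v b a (I a (n + 1)).reverse (I a n).reverse :=
  (IP_up c v n a b h).reverse

/-! ### From lists to rainbow cycles -/

theorem IP.get {c : Sym2 V → C} {v : ℤ → V} {a b : ℤ} {P Q : List ℤ} (h : IP c v a b P Q) :
    P.length = Q.length + 1 ∧ P[0]? = some a ∧ P[Q.length]? = some b ∧
    ∀ i : ℕ, i < Q.length → ∃ x y q, P[i]? = some x ∧ P[i + 1]? = some y ∧ Q[i]? = some q ∧
      c s(v x, v y) = kap c v q := by
  induction h with
  | single a => simp
  | @cons a b d q P Q h1 h2 ih =>
    obtain ⟨e1, e2, e3, e4⟩ := ih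
    refine ⟨by simp [e1], by simp, by simpa using e3, ?_⟩
    intro i hi
    rcases i with _ | i
    · exact ⟨a, b, q, by simp, by simpa using e2, by simp, h1⟩
    · obtain ⟨x, y, q', f1, f2, f3, f4⟩ := e4 i (by simpa using hi)
      exact ⟨x, y, q', by simpa using f1, by simpa using f2, by simpa using f3, f4⟩

theorem IP.toCycle {c : Sym2 V → C} {m : ℕ} {v : ℤ → V} (D : Dat c m v) {a b : ℤ}
    {P Q : List ℤ} (h : IP c v a b P Q) (s s' : ℤ)
    (hP : ∀ x ∈ P, s ≤ x ∧ x < s + m) (hPn : P.Nodup)
    (hQ : ∀ x ∈ Q, s' ≤ x ∧ x < s' + m) (hQn : Q.Nodup) (h3 : 3 ≤ P.length)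
    (hcl : ∀ q ∈ Q, c s(v b, v a) ≠ kap c v q) : HasRainbowCycle c P.length := by
  obtain ⟨e1, e2, e3, e4⟩ := h.get
  refine ⟨h3, ?_⟩
  have : NeZero P.length := ⟨by omega⟩
  have hlt : ∀ i : ZMod P.length, i.val < P.length := fun i => ZMod.val_lt i
  refine ⟨fun i => v (P[i.val]'(hlt i)), ?_, ?_⟩
  · intro i j hij
    have h1 := hP _ (List.getElem_mem (hlt i))
    have h2 := hP _ (List.getElem_mem (hlt j))
    have h3 := D.veq h1.1 h1.2 h2.1 h2.2 hij
    have h4 := (List.Nodup.getElem_inj_iff hPn).1 h3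
    exact ZMod.val_injective _ h4
  · -- colours
    have hsucc : ∀ i : ZMod P.length, i.val + 1 < P.length → (i + 1).val = i.val + 1 := by
      intro i hi
      rw [ZMod.val_add, ZMod.val_one'']
      · exact Nat.mod_eq_of_lt hi
      · omega
    have hlast : ∀ i : ZMod P.length, ¬ (i.val + 1 < P.length) → (i + 1).val = 0 := by
      intro i hi
      have : i.val + 1 = P.length := by have := hlt i; omega
      rw [ZMod.val_add, ZMod.val_one'', this, Nat.mod_self]
      omega
    have hcol : ∀ i : ZMod P.length, (hi : i.val + 1 < P.length) →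
        c s(v (P[i.val]'(hlt i)), v (P[(i + 1).val]'(hlt (i + 1)))) =
          kap c v (Q[i.val]'(by omega)) := by
      intro i hi
      obtain ⟨x, y, q, f1, f2, f3, f4⟩ := e4 i.val (by omega)
      rw [List.getElem?_eq_some_iff] at f1 f2 f3
      obtain ⟨_, f1⟩ := f1
      obtain ⟨_, f2⟩ := f2
      obtain ⟨_, f3⟩ := f3
      simp only [hsucc i hi]
      rw [f1, f2, f3, f4]
    have hcol' : ∀ i : ZMod P.length, ¬ (i.val + 1 < P.length) →
        c s(v (P[i.val]'(hlt i)), v (P[(i + 1).val]'(hlt (i + 1)))) = c s(v b, v a) := by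
      intro i hi
      have h1 : i.val = Q.length := by have := hlt i; omega
      rw [List.getElem?_eq_some_iff] at e2 e3
      obtain ⟨_, e2⟩ := e2
      obtain ⟨_, e3⟩ := e3
      simp only [hlast i hi, h1]
      rw [e2, e3]
    intro i j hij
    simp only at hij
    by_cases hi : i.val + 1 < P.length
    · by_cases hj : j.val + 1 < P.length
      · rw [hcol i hi, hcol j hj] at hij
        have g1 := hQ _ (List.getElem_mem (show i.val < Q.length by omega))
        have g2 := hQ _ (List.getElem_mem (show j.val < Q.length by omega))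
        have g3 := D.keq s' g1.1 g1.2 g2.1 g2.2 hij
        exact ZMod.val_injective _ ((List.Nodup.getElem_inj_iff hQn).1 g3)
      · rw [hcol i hi, hcol' j hj] at hij
        exact absurd hij.symm (hcl _ (List.getElem_mem _))
    · by_cases hj : j.val + 1 < P.length
      · rw [hcol' i hi, hcol j hj] at hij
        exact absurd hij (hcl _ (List.getElem_mem _))
      · have := hlt i
        have := hlt j
        exact ZMod.val_injective _ (by omega)

/-- Splitting a rainbow cycle by a chord. -/
theorem split {c : Sym2 V → C} {m d : ℕ} (h : HasRainbowCycle c m) (hd : 2 ≤ d)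
    (hd' : d + 2 ≤ m) : HasRainbowCycle c (d + 1) ∨ HasRainbowCycle c (m - d + 1) := by
  obtain ⟨v, D⟩ := exists_dat h
  by_cases hγ : ∃ q ∈ I 0 d, c s(v d, v 0) = kap c v q
  · right
    obtain ⟨q, hq, hq'⟩ := hγ
    rw [mem_I] at hq
    have hup := IP_up c v (m - d) (d : ℤ) (m : ℤ) (by omega)
    have := hup.toCycle D d d (fun x hx => by rw [mem_I] at hx; omega) (nodup_I _ _)
      (fun x hx => by rw [mem_I] at hx; omega) (nodup_I _ _) (by simp; omega) ?_
    · simpa using this
    · intro q' hq'' heq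
      rw [mem_I] at hq''
      have hm : v (m : ℤ) = v 0 := by simpa using D.per 0
      rw [hm, Sym2.eq_swap, hq'] at heq
      have := D.keq 0 (by omega) (by omega) (by omega) (by omega) heq
      omega
  · left
    push Not at hγ
    have hup := IP_up c v d (0 : ℤ) (d : ℤ) (by omega)
    have := hup.toCycle D 0 0 (fun x hx => by rw [mem_I] at hx; omega) (nodup_I _ _)
      (fun x hx => by rw [mem_I] at hx; omega) (nodup_I _ _) (by simp; omega) hγ
    simpa using this

/-- Without rainbow cycles of length `N + 2` there are none of length `≡ 2 mod N`. -/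
theorem no_bad {c : Sym2 V → C} {N : ℕ} (hN : 1 ≤ N) (h : ¬ HasRainbowCycle c (N + 2)) :
    ∀ L : ℕ, (N : ℤ) ∣ (L : ℤ) - 2 → N + 2 ≤ L → ¬ HasRainbowCycle c L := by
  intro L
  induction L using Nat.strong_induction_on with
  | _ L ih =>
    intro hL hL2 hc
    by_cases h1 : L = N + 2
    · subst h1; exact h hc
    have h2 : 2 * N + 2 ≤ L := by
      obtain ⟨k, hk⟩ := hL
      have hk2 : 2 ≤ k := by
        by_contra hcon
        have : k ≤ 1 := by omega
        have h3 : (N : ℤ) * k ≤ N * 1 := mul_le_mul_of_nonneg_left this (by omega)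
        omega
      have h3 : (N : ℤ) * 2 ≤ N * k := mul_le_mul_of_nonneg_left hk2 (by omega)
      omega
    rcases split hc (d := N + 1) (by omega) (by omega) with h3 | h3
    · exact h h3
    · have h4 : L - (N + 1) + 1 = L - N := by omega
      rw [h4] at h3
      refine ih (L - N) (by omega) ?_ (by omega) h3
      have : ((L - N : ℕ) : ℤ) - 2 = ((L : ℤ) - 2) - N := by omega
      rw [this]
      exact dvd_sub hL (dvd_refl _)

end R335.RC
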