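import Mathlib
import Pool.Agent.R335.RC.Basic

set_option autoImplicit false

namespace R335.RC

variable {V C : Type}

/-- the integers of `[a, b)` as a list -/
def J (a b : ℤ) : List ℤ := I a (b - a).toNat

theorem mem_J {a b x : ℤ} : x ∈ J a b ↔ a ≤ x ∧ x < b := by
  unfold J
  rw [mem_I]
  omega

theorem nodup_J (a b : ℤ) : (J a b).Nodup := nodup_I _ _

theorem length_J (a b : ℤ) : (J a b).length = (b - a).toNat := by simp [J]

theorem IP.up (c : Sym2 V → C) (v : ℤ → V) {a b : ℤ} (h : a ≤ b) :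
    IP c v a b (J a (b + 1)) (J a b) := by
  have h1 : (b + 1 - a).toNat = (b - a).toNat + 1 := by omega
  unfold J
  rw [h1]
  exact IP_up c v _ a b (by omega)

theorem IP.down (c : Sym2 V → C) (v : ℤ → V) {a b : ℤ} (h : a ≤ b) :
    IP c v b a (J a (b + 1)).reverse (J a b).reverse :=
  (IP.up c v h).reverse

/-- The situation in which we argue: an unrolled rainbow cycle of length `m`, and no rainbow
cycles whose length is `≡ 2 mod N` and at least `N + 2`. -/
structure Ctx (c : Sym2 V → C) (m N : ℕ) (v : ℤ → V) : Prop where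
  D : Dat c m v
  hN : 3 ≤ N
  odd : N % 2 = 1
  hm : 30 * N ≤ m
  bad : ∀ L : ℕ, (N : ℤ) ∣ (L : ℤ) - 2 → N + 2 ≤ L → ¬ HasRainbowCycle c L
  hm2 : ¬ (N : ℤ) ∣ (m : ℤ) - 2

/-- the chord `(i, j)` has the colour of the cycle edge `x ∈ [i, j)` -/
def Dom (c : Sym2 V → C) (v : ℤ → V) (i j x : ℤ) : Prop :=
  i ≤ x ∧ x < j ∧ c s(v i, v j) = kap c v x

theorem exists_cong {N : ℕ} (hN : 1 ≤ N) (lo r : ℤ) :
    ∃ j, lo ≤ j ∧ j < lo + N ∧ (N : ℤ) ∣ j - r := by
  refine ⟨lo + (r - lo) % N, ?_, ?_, ?_⟩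
  · have := Int.emod_nonneg (r - lo) (show (N : ℤ) ≠ 0 by omega)
    omega
  · have := Int.emod_lt_of_pos (r - lo) (show (0 : ℤ) < N by omega)
    omega
  · have h := Int.emod_add_mul_ediv (r - lo) N
    refine ⟨-((r - lo) / N), ?_⟩
    linear_combination h

theorem exists_half {N : ℕ} (hN : N % 2 = 1) (r : ℤ) :
    ∃ a : ℤ, 0 ≤ a ∧ a < N ∧ (N : ℤ) ∣ 2 * a - r := by
  obtain ⟨t, ht⟩ : ∃ t : ℤ, (N : ℤ) = 2 * t + 1 := ⟨(N / 2 : ℕ), by omega⟩
  obtain ⟨j, h1, h2, k, h3⟩ := exists_cong (N := N) (by omega) 0 (r * (t + 1))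
  refine ⟨j, h1, by omega, 2 * k + r, ?_⟩
  linear_combination 2 * h3 + (-r) * ht

variable {c : Sym2 V → C} {m N : ℕ} {v : ℤ → V}

theorem Ctx.close (X : Ctx c m N v) {a b : ℤ} {P Q : List ℤ} (h : IP c v a b P Q) (s s' : ℤ)
    (hP : ∀ x ∈ P, s ≤ x ∧ x < s + m) (hPn : P.Nodup)
    (hQ : ∀ x ∈ Q, s' ≤ x ∧ x < s' + m) (hQn : Q.Nodup)
    (hl : (N : ℤ) ∣ (P.length : ℤ) - 2) (hl' : N + 2 ≤ P.length) :
    ∃ q ∈ Q, c s(v b, v a) = kap c v q := by
  by_contra hcon
  push Not at hcon
  have := X.hN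
  exact X.bad _ hl hl' (h.toCycle X.D s s' hP hPn hQ hQn (by omega) hcon)

theorem Ctx.rev (X : Ctx c m N v) : Ctx c m N (fun i => v (-i)) :=
  ⟨X.D.rev, X.hN, X.odd, X.hm, X.bad, X.hm2⟩

/-- (D) -/
theorem Ctx.dom (X : Ctx c m N v) {i j : ℤ} (h1 : (N : ℤ) ∣ j - i - 1) (h2 : N + 1 ≤ j - i)
    (h3 : j - i ≤ m - 1) : ∃ x, Dom c v i j x := by
  have := X.hN
  obtain ⟨q, hq, hq'⟩ := X.close (IP.up c v (show i ≤ j by omega)) i i
    (fun x hx => by rw [mem_J] at hx; omega) (nodup_J _ _)
    (fun x hx => by rw [mem_J] at hx; omega) (nodup_J _ _)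
    (by
      rw [length_J]
      have : (((j + 1 - i).toNat : ℕ) : ℤ) = j + 1 - i := by omega
      rw [this]
      convert h1 using 1
      ring)
    (by rw [length_J]; omega)
  rw [mem_J] at hq
  exact ⟨q, hq.1, hq.2, by rw [Sym2.eq_swap]; exact hq'⟩

/-- (D2) -/
theorem Ctx.dom2 (X : Ctx c m N v) {i j i' j' x : ℤ} (hd : Dom c v i j x)
    (h1 : (N : ℤ) ∣ j - i - 1) (h3 : j - i ≤ m - 1)
    (hi : i ≤ i') (hi' : i' ≤ x) (hj : x < j') (hj' : j' ≤ j)
    (h1' : (N : ℤ) ∣ j' - i' - 1) (h2' : N + 1 ≤ j' - i') : Dom c v i' j' x := by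
  have := X.hN
  obtain ⟨x', hx1, hx2, hx3⟩ := X.dom h1' h2' (by omega)
  obtain ⟨hd1, hd2, hd3⟩ := hd
  by_cases hsm : i' = i ∧ j' = j
  · obtain ⟨rfl, rfl⟩ := hsm
    exact ⟨hd1, hd2, hd3⟩
  obtain ⟨k, hk⟩ := h1
  obtain ⟨k', hk'⟩ := h1'
  have hkk : k' + 1 ≤ k := by
    by_contra hcon
    have h5 : k ≤ k' := by omega
    have h6 : (N : ℤ) * k ≤ N * k' := mul_le_mul_of_nonneg_left h5 (by omega)
    omega
  have hkk' : (N : ℤ) * (k' + 1) ≤ N * k := mul_le_mul_of_nonneg_left hkk (by omega)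
  have hlen : N ≤ (j - i) - (j' - i') := by linarith
  have hpath := (IP.up c v hi).append hx3 (IP.up c v hj')
  obtain ⟨q, hq, hq'⟩ := X.close hpath i i
    (fun x hx => by simp only [List.mem_append, mem_J] at hx; omega)
    (by
      simp only [List.nodup_append, nodup_J, true_and, mem_J]
      intros; omega)
    (fun x hx => by simp only [List.mem_append, List.mem_cons, mem_J] at hx; omega)
    (by
      simp only [List.nodup_append, List.nodup_cons, nodup_J, true_and, and_true, mem_J, List.mem_cons]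
      and_intros <;> intros <;> omega)
    (by
      rw [List.length_append, length_J, length_J]
      have h7 : (((i' + 1 - i).toNat + (j + 1 - j').toNat : ℕ) : ℤ) = i' + 1 - i + (j + 1 - j') := by
        omega
      rw [h7]
      refine ⟨k - k', ?_⟩
      linear_combination hk - hk')
    (by rw [List.length_append, length_J, length_J]; omega)
  rw [Sym2.eq_swap, hd3] at hq'
  simp only [List.mem_append, List.mem_cons, mem_J] at hq
  have hxq : x = q := X.D.keq i (by omega) (by omega) (by omega) (by omega) hq'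
  have : x = x' := by omega
  subst this
  exact ⟨hx1, hx2, hx3⟩

/-- (S), the star lemma -/
theorem Ctx.star (X : Ctx c m N v) {s t x : ℤ} (hd : Dom c v s t x)
    (h1 : (N : ℤ) ∣ t - s - 1) (h3 : t - s ≤ m - N) (h4 : N ≤ x - s) (h5 : 2 * N ≤ t - x) :
    False := by
  have hN3 := X.hN
  have hodd := X.odd
  obtain ⟨a, ha0, haN, ha⟩ := exists_half hodd ((m : ℤ) - 2)
  have ha1 : 1 ≤ a := by
    by_contra hcon
    have : a = 0 := by omega
    subst this
    obtain ⟨k, hk⟩ := ha
    exact X.hm2 ⟨-k, by linear_combination -hk⟩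
  obtain ⟨k1, hk1⟩ := h1
  obtain ⟨k2, hk2⟩ := ha
  obtain ⟨i, hi⟩ : ∃ i : ℤ, i = s + N - a := ⟨_, rfl⟩
  obtain ⟨j, hj1, hj2, k3, hk3⟩ := exists_cong (N := N) (by omega) (x + 1 + a) (i + m - 1)
  have hsi : s ≤ i := by omega
  -- the colour of the chord `(j, i + m)`
  obtain ⟨y, hy1, hy2, hy3⟩ := X.dom (i := j) (j := i + m)
    ⟨-k3, by linear_combination -hk3⟩ (by omega) (by omega)
  rw [X.D.per i] at hy3
  -- (2)
  obtain ⟨-, -, hc2⟩ := X.dom2 (i' := i + a) (j' := j + N - a) hd ⟨k1, hk1⟩ (by omega) (by omega)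
    (by omega) (by omega) (by omega) ⟨k3 - k2 + 1, by linear_combination hk3 - hk2⟩ (by omega)
  have hp2 := (IP.up c v (show i ≤ i + a by omega)).append hc2
    (IP.down c v (show j ≤ j + N - a by omega))
  obtain ⟨q, hq, hq'⟩ := X.close hp2 i i
    (fun x hx => by
      simp only [List.mem_append, List.mem_reverse, mem_J] at hx; omega)
    (by
      simp only [List.nodup_append, List.nodup_reverse, nodup_J, true_and, mem_J, List.mem_reverse]
      intros; omega)
    (fun x hx => by
      simp only [List.mem_append, List.mem_cons, List.mem_reverse, mem_J] at hx; omega)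
    (by
      simp only [List.nodup_append, List.nodup_cons, List.nodup_reverse, nodup_J, true_and, and_true, mem_J,
        List.mem_cons, List.mem_reverse]
      and_intros <;> intros <;> omega)
    (by
      rw [List.length_append, List.length_reverse, length_J, length_J]
      refine ⟨1, ?_⟩
      omega)
    (by rw [List.length_append, List.length_reverse, length_J, length_J]; omega)
  simp only [List.mem_append, List.mem_cons, List.mem_reverse, mem_J] at hq
  rw [hy3] at hq'
  have hyq : y = q := X.D.keq i (by omega) (by omega) (by omega) (by omega) hq'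
  have hyr : y < j + N - a := by omega
  -- (3)
  obtain ⟨-, -, hc3⟩ := X.dom2 (i' := s) (j' := j - a) hd ⟨k1, hk1⟩ (by omega) (by omega)
    (by omega) (by omega) (by omega) ⟨k3 - k2 + 1, by
      subst hi; linear_combination hk3 - hk2⟩ (by omega)
  have hp3 := (IP.down c v hsi).append hc3
    (IP.up c v (show j - a ≤ j by omega))
  obtain ⟨q2, hq2, hq2'⟩ := X.close hp3 s s
    (fun x hx => by
      simp only [List.mem_append, List.mem_reverse, mem_J] at hx; omega)
    (by
      simp only [List.nodup_append, List.nodup_reverse, nodup_J, true_and, mem_J, List.mem_reverse]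
      intros; omega)
    (fun x hx => by
      simp only [List.mem_append, List.mem_cons, List.mem_reverse, mem_J] at hx; omega)
    (by
      simp only [List.nodup_append, List.nodup_cons, List.nodup_reverse, nodup_J, true_and, and_true, mem_J,
        List.mem_cons, List.mem_reverse]
      and_intros <;> intros <;> omega)
    (by
      rw [List.length_append, List.length_reverse, length_J, length_J]
      refine ⟨1, ?_⟩
      omega)
    (by rw [List.length_append, List.length_reverse, length_J, length_J]; omega)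
  simp only [List.mem_append, List.mem_cons, List.mem_reverse, mem_J] at hq2
  rw [hy3] at hq2'
  have hyq2 : y = q2 := X.D.keq s (by omega) (by omega) (by omega) (by omega) hq2'
  omega

end R335.RC
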