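import Mathlib
import Pool.Agent.R335.RC.Local

set_option autoImplicit false

namespace R335.RC

variable {V C : Type} {c : Sym2 V → C} {m N : ℕ} {v : ℤ → V}

/-- left type: the chord from `s` of length `14 N + 1` is dominated near `s` -/
def LT (c : Sym2 V → C) (v : ℤ → V) (N : ℕ) (s : ℤ) : Prop :=
  ∃ x, Dom c v s (s + (1 + 14 * N)) x ∧ x - s ≤ N - 1

theorem Ctx.lt_step (X : Ctx c m N v) {s : ℤ} (h : LT c v N s) : LT c v N (s - N) := by
  have hN := X.hN
  have hm := X.hm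
  obtain ⟨x, hx, hx'⟩ := h
  obtain ⟨y, hy⟩ := X.dom (i := s - N) (j := s + (1 + 14 * N)) ⟨15, by ring⟩ (by omega) (by omega)
  by_cases hys : s ≤ y
  · exfalso
    obtain ⟨h1, h2, h3⟩ := X.dom2 (i' := s) (j' := s + (1 + 14 * N)) hy ⟨15, by ring⟩ (by omega)
      (by omega) (by omega) hy.2.1 le_rfl ⟨14, by ring⟩ (by omega)
    obtain ⟨g1, g2, g3⟩ := hx
    rw [h3] at g3
    have hyx : y = x := X.D.keq s (by omega) (by omega) (by omega) (by omega) g3
    subst hyx
    exact X.star hy ⟨15, by ring⟩ (by omega) (by omega) (by omega)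
  · refine ⟨y, X.dom2 hy ⟨15, by ring⟩ (by omega) le_rfl hy.1 (by omega) (by omega)
      ⟨14, by ring⟩ (by omega), by omega⟩

theorem Ctx.lt_steps (X : Ctx c m N v) {s : ℤ} (a : ℕ) (h : LT c v N s) :
    LT c v N (s - a * N) := by
  induction a with
  | zero => simpa using h
  | succ a ih =>
    have := X.lt_step ih
    convert this using 1
    push_cast
    ring

theorem Dat.per_nat (D : Dat c m v) (k : ℕ) : ∀ i : ℤ, v (i + k * m) = v i := by
  induction k with
  | zero => intro i; simp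
  | succ k ih =>
    intro i
    have h1 := D.per (i + k * m)
    rw [ih i] at h1
    rw [← h1]
    congr 1
    push_cast
    ring

theorem Dat.per_int (D : Dat c m v) (k : ℤ) (i : ℤ) : v (i + k * m) = v i := by
  rcases le_total 0 k with h | h
  · obtain ⟨k, rfl⟩ := Int.eq_ofNat_of_zero_le h
    exact D.per_nat k i
  · obtain ⟨k', hk'⟩ := Int.eq_ofNat_of_zero_le (show 0 ≤ -k by omega)
    have := D.per_nat k' (i + k * m)
    rw [← this]
    congr 1
    have : (k' : ℤ) = -k := by omega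
    rw [this]; ring

theorem Ctx.lt_per (X : Ctx c m N v) {s : ℤ} (k : ℤ) (h : LT c v N s) :
    LT c v N (s + k * m) := by
  obtain ⟨x, ⟨h1, h2, h3⟩, h4⟩ := h
  refine ⟨x + k * m, ⟨by omega, by omega, ?_⟩, by omega⟩
  have e1 : s + k * m + (1 + 14 * N) = (s + (1 + 14 * N)) + k * m := by ring
  have e2 : x + k * m + 1 = (x + 1) + k * m := by ring
  rw [e1, kap, e2, X.D.per_int, X.D.per_int, X.D.per_int, X.D.per_int, h3, kap]

theorem Ctx.lt_all (X : Ctx c m N v) (hcop : Nat.Coprime m N) {s : ℤ} (h : LT c v N s) (t : ℤ) :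
    LT c v N t := by
  have hN := X.hN
  have hm := X.hm
  have hc : IsCoprime (m : ℤ) (N : ℤ) := Nat.isCoprime_iff_coprime.2 hcop
  obtain ⟨p, q, hpq⟩ := hc
  -- t = s - a N + b m
  obtain ⟨K, hK⟩ : ∃ K : ℤ, K = |(s - t) * q| := ⟨_, rfl⟩
  have hK0 : 0 ≤ K := by rw [hK]; exact abs_nonneg _
  have hK1 : -K ≤ (s - t) * q := by rw [hK]; exact neg_abs_le _
  have hKm : K ≤ K * m := by nlinarith
  obtain ⟨a, ha⟩ := Int.eq_ofNat_of_zero_le (show 0 ≤ (s - t) * q + K * m by omega)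
  have h1 := X.lt_steps a h
  have h2 := X.lt_per (K * N - (s - t) * p) h1
  convert h2 using 1
  have : (a : ℤ) = (s - t) * q + K * m := by omega
  rw [this]
  linear_combination (s - t) * hpq

theorem Ctx.exists_left (X : Ctx c m N v) (hcop : Nat.Coprime m N) :
    ∃ v', Ctx c m N v' ∧ ∀ s, LT c v' N s := by
  have hN := X.hN
  have hm := X.hm
  by_cases h : ∃ s, LT c v N s
  · obtain ⟨s, hs⟩ := h
    exact ⟨v, X, X.lt_all hcop hs⟩
  · push Not at h
    refine ⟨_, X.rev, X.rev.lt_all hcop (s := -(1 + 14 * N)) ?_⟩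
    obtain ⟨x, hx1, hx2, hx3⟩ := X.dom (i := 0) (j := 1 + 14 * N) ⟨14, by ring⟩ (by omega)
      (by omega)
    have hx4 : N ≤ x := by
      by_contra hcon
      refine h 0 ⟨x, ⟨hx1, by omega, ?_⟩, by omega⟩
      rw [zero_add]; exact hx3
    have hd : Dom c (fun i => v (-i)) (-(1 + 14 * N)) 0 (-x - 1) := by
      refine ⟨by omega, by omega, ?_⟩
      rw [Dat.kap_rev]
      simp only [neg_neg, neg_zero]
      rw [Sym2.eq_swap, hx3]
      congr 1
      ring
    refine ⟨-x - 1, ?_, ?_⟩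
    · convert hd using 1
      ring
    · by_contra hcon
      have h5 : x ≤ 1 + 14 * N - 1 - N := by omega
      have hb : ¬ (2 * N ≤ 1 + 14 * N - x) := fun hb =>
        X.star (s := 0) (t := 1 + 14 * N) ⟨hx1, hx2, hx3⟩ ⟨14, by ring⟩ (by omega) (by omega) hb
      exact X.rev.star hd ⟨14, by ring⟩ (by omega) (by omega) (by omega)

/-- the property of the function `X` describing the dominating edges -/
def HX (c : Sym2 V → C) (v : ℤ → V) (N : ℕ) (X : ℤ → ℤ) : Prop :=
  ∀ s, s ≤ X s ∧ X s ≤ s + N - 1 ∧ ∀ j, (N : ℤ) ∣ j - s - 1 → N + 1 ≤ j - s →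
    j - s ≤ 1 + 14 * N → c s(v s, v j) = kap c v (X s)

theorem Ctx.exists_X (X : Ctx c m N v) (h : ∀ s, LT c v N s) : ∃ Y : ℤ → ℤ, HX c v N Y := by
  have hN := X.hN
  have hm := X.hm
  choose Y hY hY' using h
  refine ⟨Y, fun s => ⟨(hY s).1, by have := hY' s; omega, fun j h1 h2 h3 => ?_⟩⟩
  have h4 := hY' s
  exact (X.dom2 (i' := s) (j' := j) (hY s) ⟨14, by ring⟩ (by omega) le_rfl (hY s).1 (by omega)
    (by omega) h1 h2).2.2

end R335.RC
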