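import Mathlib
import Pool.Agent.R335.RC.Types

set_option autoImplicit false

namespace R335.RC

variable {V C : Type} {c : Sym2 V → C} {m N : ℕ} {v : ℤ → V}

/-- one half of (T): the colour of the chord `(l, k)` is `X k`, `X l`, or lies in a
controlled interval -/
theorem Ctx.tree_aux (X : Ctx c m N v) {Y : ℤ → ℤ} (hY : HX c v N Y) {k l : ℤ}
    (h1 : N ≤ l - k) (h2 : l - k ≤ 2 * N - 1) (b : ℤ) (hb : 1 ≤ b) (hb' : b ≤ 7) :
    ∃ q, c s(v l, v k) = kap c v q ∧
      (q = Y k ∨ q = Y l ∨ (l + 1 + b * N ≤ q ∧ q ≤ l + b * N + 5 * N)) := by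
  have hN := X.hN
  have hm := X.hm
  obtain ⟨A, hA1, hA2, κ1, hA3⟩ := exists_half X.odd ((l - k) - 1)
  obtain ⟨B, hB⟩ : ∃ B : ℤ, B = 2 * N - 2 - A := ⟨_, rfl⟩
  obtain ⟨bN, hbN⟩ : ∃ bN : ℤ, bN = b * N := ⟨_, rfl⟩
  have hbN1 : (N : ℤ) ≤ bN := by rw [hbN]; nlinarith
  have hbN2 : bN ≤ 7 * N := by rw [hbN]; nlinarith
  obtain ⟨L1, hL1⟩ : ∃ L1 : ℤ, L1 = l + 1 + bN := ⟨_, rfl⟩
  obtain ⟨L2, hL2⟩ : ∃ L2 : ℤ, L2 = L1 + B := ⟨_, rfl⟩
  obtain ⟨K1, hK1, hK2, κ2, hK3⟩ := exists_cong (N := N) (by omega) (L2 + N + 1) (k + 1)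
  obtain ⟨w, hw⟩ : ∃ w : ℤ, w = K1 + A := ⟨_, rfl⟩
  obtain ⟨Yk1, Yk2, Yk3⟩ := hY k
  obtain ⟨Yl1, Yl2, Yl3⟩ := hY l
  obtain ⟨YL1, YL2, YL3⟩ := hY L2
  have c1 : c s(v k, v K1) = kap c v (Y k) :=
    Yk3 K1 ⟨κ2, by linear_combination hK3⟩ (by omega) (by omega)
  have c2 : c s(v L2, v w) = kap c v (Y L2) :=
    YL3 w ⟨κ2 + κ1 - b - 2, by rw [hw, hL2, hL1, hB, hbN]; linear_combination hK3 + hA3⟩
      (by omega) (by omega)
  have c3 : c s(v l, v L1) = kap c v (Y l) :=
    Yl3 L1 ⟨b, by rw [hL1, hbN]; ring⟩ (by omega) (by omega)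
  have hp := (IP.single (c := c) (v := v) k).append c1
    ((IP.up c v (show K1 ≤ w by omega)).append (by rw [Sym2.eq_swap]; exact c2)
      ((IP.down c v (show L1 ≤ L2 by omega)).append (by rw [Sym2.eq_swap]; exact c3)
        (IP.single (c := c) (v := v) l)))
  obtain ⟨q, hq, hq'⟩ := X.close hp k k
    (fun x hx => by
      simp only [List.mem_append, List.mem_cons, List.mem_reverse, mem_J, List.not_mem_nil,
        or_false] at hx; omega)
    (by
      simp only [List.nodup_append, List.nodup_cons, List.nodup_nil, List.nodup_reverse, nodup_J,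
        true_and, and_true, mem_J, List.mem_append, List.mem_cons, List.mem_reverse,
        List.not_mem_nil, or_false, not_false_eq_true]
      and_intros <;> intros <;> omega)
    (fun x hx => by
      simp only [List.mem_append, List.mem_cons, List.mem_reverse, mem_J, List.not_mem_nil,
        or_false, false_or] at hx; omega)
    (by
      simp only [List.nil_append, List.nodup_append, List.nodup_cons, List.nodup_nil,
        List.nodup_reverse, nodup_J,
        true_and, and_true, mem_J, List.mem_append, List.mem_cons, List.mem_reverse,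
        List.not_mem_nil, or_false, not_false_eq_true]
      and_intros <;> intros <;> omega)
    (by
      simp only [List.length_append, List.length_cons, List.length_nil, List.length_reverse,
        length_J]
      refine ⟨2, ?_⟩
      omega)
    (by
      simp only [List.length_append, List.length_cons, List.length_nil, List.length_reverse,
        length_J]
      omega)
  refine ⟨q, hq', ?_⟩
  simp only [List.mem_append, List.mem_cons, List.mem_reverse, mem_J, List.not_mem_nil,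
        or_false, false_or] at hq
  rw [← hbN]
  omega

/-- (T) -/
theorem Ctx.tree (X : Ctx c m N v) {Y : ℤ → ℤ} (hY : HX c v N Y) {k l : ℤ}
    (h1 : N ≤ l - k) (h2 : l - k ≤ 2 * N - 1) :
    c s(v k, v l) = kap c v (Y k) ∨ c s(v k, v l) = kap c v (Y l) := by
  have hN := X.hN
  have hm := X.hm
  obtain ⟨q, hq, hq'⟩ := X.tree_aux hY h1 h2 1 (by norm_num) (by norm_num)
  obtain ⟨q2, hq2, hq2'⟩ := X.tree_aux hY h1 h2 7 (by norm_num) (by norm_num)
  rw [Sym2.eq_swap]
  obtain ⟨Yk1, Yk2, Yk3⟩ := hY k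
  obtain ⟨Yl1, Yl2, Yl3⟩ := hY l
  have h := hq.symm.trans hq2
  have hqq : q = q2 := X.D.keq k (by omega) (by omega) (by omega) (by omega) h
  subst hqq
  rcases hq' with rfl | rfl | hq'
  · exact Or.inl hq
  · exact Or.inr hq
  · rcases hq2' with rfl | rfl | hq2'
    · exact Or.inl hq
    · exact Or.inr hq
    · omega

end R335.RC
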