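import Mathlib
import Pool.Agent.R335.RC.Tree

set_option autoImplicit false

namespace R335.RC

variable {V C : Type} {c : Sym2 V → C} {m N : ℕ} {v : ℤ → V}

theorem Dat.last (D : Dat c m v) : c s(v ((m : ℤ) - 1), v 0) = kap c v ((m : ℤ) - 1) := by
  have h := D.per 0
  rw [zero_add] at h
  rw [kap, ← h]
  congr 3
  ring

theorem Ctx.caseF (X : Ctx c m N v) {Y : ℤ → ℤ} (hY : HX c v N Y) {k1 k2 f1 f2 : ℤ}
    (a1 : 0 ≤ k1) (a2 : N ≤ f1) (a2' : f1 ≤ 2 * N - 1) (a3 : k1 + f1 < k2) (a4 : N ≤ f2)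
    (a4' : f2 ≤ 2 * N - 1) (a5 : k2 + f2 ≤ m - 2) (a6 : (N : ℤ) ∣ f1 + f2 - m)
    (h1 : c s(v k1, v (k1 + f1)) = kap c v (Y k1))
    (h2 : c s(v k2, v (k2 + f2)) = kap c v (Y k2)) : False := by
  have hN := X.hN
  have hm := X.hm
  obtain ⟨Y11, Y12, -⟩ := hY k1
  obtain ⟨Y21, Y22, -⟩ := hY k2
  have hp := (IP.up c v a1).append h1
    ((IP.up c v (show k1 + f1 ≤ k2 by omega)).append h2
      (IP.up c v (show k2 + f2 ≤ (m : ℤ) - 1 by omega)))
  obtain ⟨q, hq, hq'⟩ := X.close hp 0 0
    (fun x hx => by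
      simp only [List.mem_append, mem_J] at hx; omega)
    (by
      simp only [List.nodup_append, nodup_J, true_and, mem_J, List.mem_append]
      and_intros <;> intros <;> omega)
    (fun x hx => by
      simp only [List.mem_append, List.mem_cons, mem_J] at hx; omega)
    (by
      simp only [List.nodup_append, List.nodup_cons, nodup_J,
        true_and, and_true, mem_J, List.mem_append, List.mem_cons]
      and_intros <;> intros <;> omega)
    (by
      simp only [List.length_append, length_J]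
      obtain ⟨κ, hκ⟩ := a6
      have e : (((k1 + 1 - 0).toNat + ((k2 + 1 - (k1 + f1)).toNat +
          ((m : ℤ) - 1 + 1 - (k2 + f2)).toNat) : ℕ) : ℤ) =
          (k1 + 1) + (k2 + 1 - (k1 + f1)) + (m - (k2 + f2)) := by omega
      rw [e]
      exact ⟨-κ, by linear_combination -hκ⟩)
    (by
      simp only [List.length_append, length_J]
      omega)
  rw [X.D.last] at hq'
  simp only [List.mem_append, List.mem_cons, mem_J] at hq
  have := X.D.keq 0 (by omega) (by omega) (by omega) (by omega) hq'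
  omega

theorem Ctx.caseB (X : Ctx c m N v) {Y : ℤ → ℤ} (hY : HX c v N Y) {k1 k2 f1 f2 : ℤ}
    (a1 : 2 * N ≤ k1) (a2 : N ≤ f1) (a2' : f1 ≤ 2 * N - 1) (a3 : k1 + 7 * N ≤ k2) (a4 : N ≤ f2)
    (a4' : f2 ≤ 2 * N - 1) (a5 : k2 + 4 * N ≤ m - 2) (a6 : (N : ℤ) ∣ f1 + f2 + m)
    (h1 : c s(v k1, v (k1 + f1)) = kap c v (Y (k1 + f1)))
    (h2 : c s(v k2, v (k2 + f2)) = kap c v (Y (k2 + f2))) : False := by
  have hN := X.hN
  have hm := X.hm
  obtain ⟨l1, hl1⟩ : ∃ l1 : ℤ, l1 = k1 + f1 := ⟨_, rfl⟩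
  obtain ⟨l2, hl2⟩ : ∃ l2 : ℤ, l2 = k2 + f2 := ⟨_, rfl⟩
  rw [← hl1] at h1
  rw [← hl2] at h2
  obtain ⟨i1, hi1, hi1', κ1, hκ1⟩ := exists_cong (N := N) (by omega) (k1 - 2 * N + 1) (l1 - 1)
  obtain ⟨i2, hi2, hi2', κ2, hκ2⟩ := exists_cong (N := N) (by omega) (k2 - 2 * N + 1) (l2 - 1)
  obtain ⟨j1, hj1, hj1', κ3, hκ3⟩ := exists_cong (N := N) (by omega) (l1 + N) (k1 + 1)
  obtain ⟨j2, hj2, hj2', κ4, hκ4⟩ := exists_cong (N := N) (by omega) (l2 + N) (k2 + 1)
  obtain ⟨Yk11, Yk12, Yk13⟩ := hY k1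
  obtain ⟨Yk21, Yk22, Yk23⟩ := hY k2
  obtain ⟨Yl11, Yl12, -⟩ := hY l1
  obtain ⟨Yl21, Yl22, -⟩ := hY l2
  obtain ⟨Yi11, Yi12, Yi13⟩ := hY i1
  obtain ⟨Yi21, Yi22, Yi23⟩ := hY i2
  have c1 : c s(v i1, v l1) = kap c v (Y i1) :=
    Yi13 l1 ⟨-κ1, by linear_combination -hκ1⟩ (by omega) (by omega)
  have c2 : c s(v k1, v j1) = kap c v (Y k1) :=
    Yk13 j1 ⟨κ3, by linear_combination hκ3⟩ (by omega) (by omega)
  have c3 : c s(v i2, v l2) = kap c v (Y i2) :=
    Yi23 l2 ⟨-κ2, by linear_combination -hκ2⟩ (by omega) (by omega)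
  have c4 : c s(v k2, v j2) = kap c v (Y k2) :=
    Yk23 j2 ⟨κ4, by linear_combination hκ4⟩ (by omega) (by omega)
  rw [Sym2.eq_swap] at h1 h2
  have hp := (IP.up c v (show 0 ≤ i1 by omega)).append c1
    ((IP.single (c := c) (v := v) l1).append h1
      ((IP.single (c := c) (v := v) k1).append c2
        ((IP.up c v (show j1 ≤ i2 by omega)).append c3
          ((IP.single (c := c) (v := v) l2).append h2
            ((IP.single (c := c) (v := v) k2).append c4
              (IP.up c v (show j2 ≤ (m : ℤ) - 1 by omega)))))))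
  obtain ⟨q, hq, hq'⟩ := X.close hp 0 0
    (fun x hx => by
      simp only [List.mem_append, List.mem_cons, List.not_mem_nil, or_false, mem_J] at hx; omega)
    (by
      simp only [List.cons_append, List.nil_append, List.nodup_append, List.nodup_cons, nodup_J,
        true_and, and_true, mem_J, List.mem_append, List.mem_cons]
      and_intros <;> intros <;> omega)
    (fun x hx => by
      simp only [List.mem_append, List.mem_cons, List.not_mem_nil, false_or, mem_J] at hx; omega)
    (by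
      simp only [List.cons_append, List.nil_append, List.nodup_append, List.nodup_cons, nodup_J,
        true_and, and_true, mem_J, List.mem_append, List.mem_cons]
      and_intros <;> intros <;> omega)
    (by
      simp only [List.length_append, List.length_cons, List.length_nil, length_J]
      obtain ⟨κ, hκ⟩ := a6
      have e : (((i1 + 1 - 0).toNat + (0 + 1 + (0 + 1 + ((i2 + 1 - j1).toNat + (0 + 1 + (0 + 1 +
          ((m : ℤ) - 1 + 1 - j2).toNat))))) : ℕ) : ℤ) =
          (i1 + 1) + (i2 + 1 - j1) + (m - j2) + 4 := by omega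
      rw [e]
      exact ⟨κ1 + κ2 - κ3 - κ4 + κ, by linear_combination hκ1 + hκ2 - hκ3 - hκ4 + hκ + hl1 + hl2⟩)
    (by
      simp only [List.length_append, List.length_cons, List.length_nil, length_J]
      omega)
  rw [X.D.last] at hq'
  simp only [List.mem_append, List.mem_cons, List.not_mem_nil, false_or, mem_J] at hq
  have := X.D.keq 0 (by omega) (by omega) (by omega) (by omega) hq'
  omega

theorem pigeon {N : ℕ} [NeZero N] (S T : Finset (ZMod N)) (h : N < S.card + T.card) (τ : ZMod N) :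
    ∃ s ∈ S, ∃ t ∈ T, s + t = τ := by
  classical
  have h1 : (T.image (fun t => τ - t)).card = T.card :=
    Finset.card_image_of_injective _ (fun x y hxy => by simpa using hxy)
  have h2 : (S ∩ T.image (fun t => τ - t)).Nonempty := by
    refine Finset.inter_nonempty_of_card_lt_card_add_card (Finset.subset_univ _)
      (Finset.subset_univ _) ?_
    rw [h1, Finset.card_univ, ZMod.card]
    exact h
  obtain ⟨s, hs⟩ := h2
  rw [Finset.mem_inter, Finset.mem_image] at hs
  obtain ⟨hs, t, ht, hst⟩ := hs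
  exact ⟨s, hs, t, ht, by rw [← hst]; ring⟩

theorem Ctx.absurd (X : Ctx c m N v) {Y : ℤ → ℤ} (hY : HX c v N Y) : False := by
  classical
  have hN := X.hN
  have hm := X.hm
  have hodd := X.odd
  have : NeZero N := ⟨by omega⟩
  obtain ⟨F, hF⟩ : ∃ F : ℤ → Finset (ZMod N), ∀ k, F k = Finset.univ.filter
      (fun t : ZMod N => c s(v k, v (k + (N + (t.val : ℤ)))) = kap c v (Y k)) := ⟨_, fun _ => rfl⟩
  obtain ⟨B, hB⟩ : ∃ B : ℤ → Finset (ZMod N), ∀ k, B k = Finset.univ.filter
      (fun t : ZMod N => c s(v k, v (k + (N + (t.val : ℤ)))) = kap c v (Y (k + (N + (t.val : ℤ))))) :=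
    ⟨_, fun _ => rfl⟩
  have hval : ∀ t : ZMod N, (t.val : ℤ) < N := fun t => by exact_mod_cast ZMod.val_lt t
  have hcard : ∀ k, N < 2 * (F k).card ∨ N < 2 * (B k).card := by
    intro k
    have h1 : F k ∪ B k = Finset.univ := by
      rw [Finset.eq_univ_iff_forall]
      intro t
      rw [Finset.mem_union, hF, hB, Finset.mem_filter, Finset.mem_filter]
      have := hval t
      rcases X.tree hY (k := k) (l := k + (N + (t.val : ℤ))) (by omega) (by omega) with h | h
      · exact Or.inl ⟨Finset.mem_univ _, h⟩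
      · exact Or.inr ⟨Finset.mem_univ _, h⟩
    have h2 := Finset.card_union_le (F k) (B k)
    rw [h1, Finset.card_univ, ZMod.card] at h2
    omega
  have hFF : ∀ k1 k2 : ℤ, 0 ≤ k1 → k1 + 2 * N ≤ k2 → k2 + 2 * N ≤ m - 2 → N < 2 * (F k1).card →
      N < 2 * (F k2).card → False := by
    intro k1 k2 b1 b2 b3 b4 b5
    obtain ⟨s, hs, t, ht, hst⟩ := pigeon (F k1) (F k2) (by omega) (m : ZMod N)
    rw [hF, Finset.mem_filter] at hs ht
    have hs' := hval s
    have ht' := hval t
    refine X.caseF hY b1 (by omega) (by omega) (by omega) (by omega) (by omega) (by omega) ?_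
      hs.2 ht.2
    rw [← ZMod.intCast_zmod_eq_zero_iff_dvd]
    push_cast
    simp only [ZMod.natCast_self, ZMod.natCast_val, ZMod.cast_id', id]
    rw [← hst]; ring
  have hBB : ∀ k1 k2 : ℤ, 2 * N ≤ k1 → k1 + 7 * N ≤ k2 → k2 + 4 * N ≤ m - 2 → N < 2 * (B k1).card →
      N < 2 * (B k2).card → False := by
    intro k1 k2 b1 b2 b3 b4 b5
    obtain ⟨s, hs, t, ht, hst⟩ := pigeon (B k1) (B k2) (by omega) (-(m : ZMod N))
    rw [hB, Finset.mem_filter] at hs ht
    have hs' := hval s
    have ht' := hval t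
    refine X.caseB hY b1 (by omega) (by omega) (by omega) (by omega) (by omega) (by omega) ?_
      hs.2 ht.2
    rw [← ZMod.intCast_zmod_eq_zero_iff_dvd]
    push_cast
    simp only [ZMod.natCast_self, ZMod.natCast_val, ZMod.cast_id', id]
    have : (m : ZMod N) = -(s + t) := by rw [hst]; ring
    rw [this]; ring
  rcases hcard (2 * N) with h0 | h0
  · rcases hcard (9 * N) with h1 | h1
    · exact hFF (2 * N) (9 * N) (by omega) (by omega) (by omega) h0 h1
    · rcases hcard (16 * N) with h2 | h2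
      · exact hFF (2 * N) (16 * N) (by omega) (by omega) (by omega) h0 h2
      · exact hBB (9 * N) (16 * N) (by omega) (by omega) (by omega) h1 h2
  · rcases hcard (9 * N) with h1 | h1
    · rcases hcard (16 * N) with h2 | h2
      · exact hFF (9 * N) (16 * N) (by omega) (by omega) (by omega) h1 h2
      · exact hBB (2 * N) (16 * N) (by omega) (by omega) (by omega) h0 h2
    · exact hBB (2 * N) (9 * N) (by omega) (by omega) (by omega) h0 h1

/-- the coprime case -/
theorem coprime_case {c : Sym2 V → C} {m N : ℕ} (hN : 3 ≤ N) (hodd : N % 2 = 1)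
    (hm : 30 * N ≤ m) (hcop : Nat.Coprime m N) (hno : ¬ HasRainbowCycle c (N + 2)) :
    ¬ HasRainbowCycle c m := by
  intro hc
  obtain ⟨v, D⟩ := exists_dat hc
  have hbad := no_bad (by omega) hno
  have X : Ctx c m N v := ⟨D, hN, hodd, hm, hbad, fun h => hbad m h (by omega) hc⟩
  obtain ⟨v', X', hL⟩ := X.exists_left hcop
  obtain ⟨Y, hY⟩ := X'.exists_X hL
  exact X'.absurd hY

/-- the general case -/
theorem general_case {c : Sym2 V → C} {m N : ℕ} (hN : 3 ≤ N) (hodd : N % 2 = 1)
    (hm : 61 * N ≤ m) (hno : ¬ HasRainbowCycle c (N + 2)) :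
    ¬ HasRainbowCycle c m := by
  intro hc
  have hφ : ∃ u : ℤ, ∀ p : ℕ, p.Prime → p ∣ N → ¬ (p : ℤ) ∣ u ∧ ¬ (p : ℤ) ∣ (m : ℤ) + 2 - u := by
    refine ⟨1 + (m : ℤ) ^ N.totient, fun p hp hpN => ?_⟩
    have := Fact.mk hp
    have hp2 : p ≠ 2 := by
      rintro rfl
      omega
    have h2 : (2 : ZMod p) ≠ 0 := by
      intro h
      have : ((2 : ℕ) : ZMod p) = 0 := by exact_mod_cast h
      rw [ZMod.natCast_eq_zero_iff] at this
      exact hp2 ((Nat.prime_dvd_prime_iff_eq hp Nat.prime_two).1 this)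
    have hN0 : N.totient ≠ 0 := by
      have := Nat.totient_pos.2 (show 0 < N by omega)
      omega
    by_cases hpm : (m : ZMod p) = 0
    · constructor
      · rw [← ZMod.intCast_zmod_eq_zero_iff_dvd]
        push_cast
        rw [hpm, zero_pow hN0]
        simp
      · rw [← ZMod.intCast_zmod_eq_zero_iff_dvd]
        push_cast
        rw [hpm, zero_pow hN0]
        intro h
        have : (1 : ZMod p) = 0 := by linear_combination h
        exact one_ne_zero this
    · have hpow : (m : ZMod p) ^ N.totient = 1 := by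
        obtain ⟨t, ht⟩ := Nat.totient_dvd_of_dvd hpN
        rw [ht, Nat.totient_prime hp, pow_mul, ZMod.pow_card_sub_one_eq_one hpm, one_pow]
      constructor
      · rw [← ZMod.intCast_zmod_eq_zero_iff_dvd]
        push_cast
        rw [hpow]
        intro h
        exact h2 (by linear_combination h)
      · rw [← ZMod.intCast_zmod_eq_zero_iff_dvd]
        push_cast
        rw [hpow]
        intro h
        exact hpm (by linear_combination h)
  obtain ⟨u, hu⟩ := hφ
  obtain ⟨d, hd1, hd2, hd3⟩ := exists_cong (N := N) (by omega) (30 * N) (u - 1)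
  obtain ⟨d, rfl⟩ := Int.eq_ofNat_of_zero_le (show 0 ≤ d by omega)
  have hcop : ∀ m' : ℕ, (∀ p : ℕ, p.Prime → p ∣ N → ¬ (p : ℤ) ∣ (m' : ℤ)) → Nat.Coprime m' N := by
    intro m' h
    refine Nat.Coprime.symm (Nat.coprime_of_dvd fun p hp h1 h2 => ?_)
    exact h p hp h1 (by exact_mod_cast h2)
  rcases split hc (d := d) (by omega) (by omega) with h | h
  · refine coprime_case hN hodd (by omega) (hcop _ fun p hp hpN h3 => (hu p hp hpN).1 ?_) hno h
    have h4 : (p : ℤ) ∣ N := by exact_mod_cast hpN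
    have h5 := dvd_sub h3 (h4.trans hd3)
    have e : ((d + 1 : ℕ) : ℤ) - ((d : ℤ) - (u - 1)) = u := by push_cast; ring
    rwa [e] at h5
  · refine coprime_case hN hodd (by omega) (hcop _ fun p hp hpN h3 => (hu p hp hpN).2 ?_) hno h
    have h4 : (p : ℤ) ∣ N := by exact_mod_cast hpN
    have h5 := dvd_add h3 (h4.trans hd3)
    have e : ((m - d + 1 : ℕ) : ℤ) + ((d : ℤ) - (u - 1)) = m + 2 - u := by
      have : ((m - d + 1 : ℕ) : ℤ) = m - d + 1 := by omega
      rw [this]; ring
    rwa [e] at h5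

end R335.RC
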